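import Pool.Agent.Helper75.EC.Stmts

open MvPolynomial

universe w

namespace Pool.Agent.Helper17.EC

open Pool.Agent.Helper75.EC

section

variable {K : Type*} [Field K] {σ : Type*}

/-- weight of a monomial -/
def MUL_wd (w : σ → ℕ) (d : σ →₀ ℕ) : ℕ := d.sum fun i k => k * w i

/-- generating function of the weighted components -/
noncomputable def MUL_Phi (w : σ → ℕ) : MvPolynomial σ K →ₐ[K] Polynomial (MvPolynomial σ K) :=
  aeval fun i => Polynomial.C (X i) * Polynomial.X ^ w i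

lemma MUL_Phi_monomial (w : σ → ℕ) (d : σ →₀ ℕ) (c : K) :
    MUL_Phi w (monomial d c) = Polynomial.monomial (MUL_wd w d) (monomial d c) := by
  unfold MUL_Phi MUL_wd
  rw [aeval_monomial]
  have h1 : (d.prod fun i k => ((Polynomial.C (X i : MvPolynomial σ K) * Polynomial.X ^ w i) ^ k)) =
      Polynomial.C (d.prod fun i k => (X i : MvPolynomial σ K) ^ k) *
        Polynomial.X ^ (d.sum fun i k => k * w i) := by
    unfold Finsupp.prod Finsupp.sum
    rw [map_prod, ← Finset.prod_pow_eq_pow_sum, ← Finset.prod_mul_distrib]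
    apply Finset.prod_congr rfl
    intro i _
    change (Polynomial.C (X i : MvPolynomial σ K) * Polynomial.X ^ w i) ^ (d i) =
      Polynomial.C ((X i : MvPolynomial σ K) ^ (d i)) * Polynomial.X ^ (d i * w i)
    rw [mul_pow, ← pow_mul, map_pow, mul_comm (w i)]
  rw [h1, ← mul_assoc]
  rw [show (algebraMap K (Polynomial (MvPolynomial σ K))) c =
    Polynomial.C (C c : MvPolynomial σ K) from rfl, ← map_mul]
  rw [← monomial_eq, ← Polynomial.C_mul_X_pow_eq_monomial]

lemma MUL_coeff (w : σ → ℕ) (F : MvPolynomial σ K) (k : ℕ) (e : σ →₀ ℕ) :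
    coeff e ((MUL_Phi w F).coeff k) = if MUL_wd w e = k then coeff e F else 0 := by
  classical
  induction F using MvPolynomial.induction_on' with
  | monomial d c =>
    rw [MUL_Phi_monomial, Polynomial.coeff_monomial]
    by_cases h : MUL_wd w d = k
    · rw [if_pos h, coeff_monomial]
      by_cases h2 : d = e
      · subst h2; rw [if_pos rfl, if_pos h]
      · rw [if_neg h2]; simp
    · rw [if_neg h, coeff_zero, coeff_monomial]
      by_cases h2 : d = e
      · subst h2; rw [if_neg h]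
      · rw [if_neg h2]; simp
  | add p q hp hq =>
    rw [map_add, Polynomial.coeff_add, coeff_add, hp, hq, coeff_add]
    split_ifs <;> simp

lemma MUL_coeff_ne (w : σ → ℕ) {F : MvPolynomial σ K} {e : σ →₀ ℕ} (he : e ∈ F.support) :
    (MUL_Phi w F).coeff (MUL_wd w e) ≠ 0 := by
  intro h
  have := MUL_coeff w F (MUL_wd w e) e
  rw [h, if_pos rfl, coeff_zero] at this
  exact (mem_support_iff.1 he) this.symm

lemma MUL_Phi_ne (w : σ → ℕ) {F : MvPolynomial σ K} (hF : F ≠ 0) : MUL_Phi w F ≠ 0 := by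
  obtain ⟨e, he⟩ := Finset.nonempty_iff_ne_empty.2 (fun h => hF (support_eq_empty.1 h))
  intro h
  apply MUL_coeff_ne w he
  rw [h, Polynomial.coeff_zero]

lemma MUL_exists_of_coeff (w : σ → ℕ) {F : MvPolynomial σ K} {k : ℕ}
    (h : (MUL_Phi w F).coeff k ≠ 0) : ∃ e ∈ F.support, MUL_wd w e = k := by
  obtain ⟨e, he⟩ := Finset.nonempty_iff_ne_empty.2 (fun h' => h (support_eq_empty.1 h'))
  have h1 := mem_support_iff.1 he
  rw [MUL_coeff] at h1
  split_ifs at h1 with h2
  · exact ⟨e, mem_support_iff.2 h1, h2⟩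
  · exact absurd rfl h1

lemma MUL_of_mul (w : σ → ℕ) {F G : MvPolynomial σ K} (h0 : F * G ≠ 0) {n : ℕ}
    (h : ∀ d ∈ (F * G).support, MUL_wd w d = n) :
    ∃ n1 n2, n1 + n2 = n ∧ (∀ d ∈ F.support, MUL_wd w d = n1) ∧
      ∀ d ∈ G.support, MUL_wd w d = n2 := by
  have hF : F ≠ 0 := left_ne_zero_of_mul h0
  have hG : G ≠ 0 := right_ne_zero_of_mul h0
  have hP := MUL_Phi_ne w hF
  have hQ := MUL_Phi_ne w hG
  have hPQ : MUL_Phi w F * MUL_Phi w G = Polynomial.monomial n (F * G) := by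
    rw [← map_mul]
    ext k e
    rw [MUL_coeff, Polynomial.coeff_monomial]
    by_cases h1 : e ∈ (F * G).support
    · rw [h e h1]
      split_ifs <;> simp
    · rw [notMem_support_iff.1 h1]
      split_ifs
      · rw [notMem_support_iff.1 h1]
      · simp
      · rw [notMem_support_iff.1 h1]
      · simp
  have h1 : (MUL_Phi w F).natDegree + (MUL_Phi w G).natDegree = n := by
    rw [← Polynomial.natDegree_mul hP hQ, hPQ, Polynomial.natDegree_monomial_eq _ h0]
  have h2 : (MUL_Phi w F).natTrailingDegree + (MUL_Phi w G).natTrailingDegree = n := by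
    rw [← Polynomial.natTrailingDegree_mul hP hQ, hPQ, Polynomial.natTrailingDegree_monomial h0]
  have h3 := (MUL_Phi w F).natTrailingDegree_le_natDegree
  have h4 := (MUL_Phi w G).natTrailingDegree_le_natDegree
  refine ⟨_, _, h1, fun d hd => ?_, fun d hd => ?_⟩
  · have h5 := Polynomial.le_natDegree_of_ne_zero (MUL_coeff_ne w hd)
    have h6 := Polynomial.natTrailingDegree_le_of_ne_zero (MUL_coeff_ne w hd)
    omega
  · have h5 := Polynomial.le_natDegree_of_ne_zero (MUL_coeff_ne w hd)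
    have h6 := Polynomial.natTrailingDegree_le_of_ne_zero (MUL_coeff_ne w hd)
    omega

lemma MUL_wd_one (d : σ →₀ ℕ) : MUL_wd (fun _ => 1) d = d.degree := by
  unfold MUL_wd
  rw [Finsupp.degree_apply]
  simp [Finsupp.sum]

/-- the translated polynomial -/
noncomputable def MUL_T (p : σ → K) : MvPolynomial σ K →ₐ[K] MvPolynomial σ K :=
  aeval (fun j => (X j + C (p j) : MvPolynomial σ K))

lemma MUL_T_T (p : σ → K) (F : MvPolynomial σ K) : MUL_T (fun j => -p j) (MUL_T p F) = F := by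
  have h : (MUL_T (fun j => -p j)).comp (MUL_T p) = AlgHom.id K (MvPolynomial σ K) := by
    apply MvPolynomial.algHom_ext
    intro i
    simp only [MUL_T, AlgHom.comp_apply, aeval_X, map_add, AlgHom.id_apply]
    rw [show (aeval fun j => (X j + C (-p j) : MvPolynomial σ K)) (C (p i)) = C (p i) from
      aeval_C _ _]
    rw [add_assoc, ← C_add, neg_add_cancel, C_0, add_zero]
  exact DFunLike.congr_fun h F

lemma MUL_T_ne {p : σ → K} {F : MvPolynomial σ K} (hF : F ≠ 0) : MUL_T p F ≠ 0 := by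
  intro h
  apply hF
  rw [← MUL_T_T p F, h, map_zero]

/-- the order of vanishing -/
noncomputable def MUL_ord (F : MvPolynomial σ K) (p : σ → K) : ℕ :=
  (MUL_Phi (fun _ => 1) (MUL_T p F)).natTrailingDegree

lemma MUL_not_iff {F : MvPolynomial σ K} {p : σ → K} {k : ℕ} :
    ¬ OrdGe F p (k + 1) ↔ F ≠ 0 ∧ MUL_ord F p ≤ k := by
  constructor
  · intro h
    unfold OrdGe at h
    push Not at h
    obtain ⟨d, hd, hdk⟩ := h
    refine ⟨?_, ?_⟩
    · rintro rfl
      rw [map_zero, support_zero] at hd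
      exact absurd hd (Finset.notMem_empty d)
    · have h1 := Polynomial.natTrailingDegree_le_of_ne_zero (MUL_coeff_ne (fun _ => 1) hd)
      rw [MUL_wd_one] at h1
      unfold MUL_ord
      exact h1.trans (by omega)
  · rintro ⟨h0, h1⟩ h2
    have h3 : MUL_Phi (fun _ => 1) (MUL_T p F) ≠ 0 := MUL_Phi_ne _ (MUL_T_ne h0)
    have h4 : (MUL_Phi (fun _ => 1) (MUL_T p F)).coeff (MUL_ord F p) ≠ 0 :=
      mt Polynomial.trailingCoeff_eq_zero.1 h3
    obtain ⟨e, he, hek⟩ := MUL_exists_of_coeff _ h4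
    have h5 := h2 e he
    rw [MUL_wd_one] at hek
    omega

lemma MUL_le_iff {F : MvPolynomial σ K} {p : σ → K} {k : ℕ} (hF : F ≠ 0) :
    OrdGe F p k ↔ k ≤ MUL_ord F p := by
  rcases k with _ | k
  · exact ⟨fun _ => Nat.zero_le _, fun _ d _ => Nat.zero_le _⟩
  · have := MUL_not_iff (F := F) (p := p) (k := k)
    constructor
    · intro h
      by_contra h2
      exact this.2 ⟨hF, by omega⟩ h
    · intro h
      by_contra h2
      have := (this.1 h2).2
      omega

lemma MUL_zero (p : σ → K) (k : ℕ) : OrdGe (0 : MvPolynomial σ K) p k := by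
  intro d hd
  rw [map_zero, support_zero] at hd
  exact absurd hd (Finset.notMem_empty d)

lemma MUL_ord_mul {F G : MvPolynomial σ K} {p : σ → K} (hF : F ≠ 0) (hG : G ≠ 0) :
    MUL_ord (F * G) p = MUL_ord F p + MUL_ord G p := by
  unfold MUL_ord
  rw [map_mul, map_mul, Polynomial.natTrailingDegree_mul (MUL_Phi_ne _ (MUL_T_ne hF))
    (MUL_Phi_ne _ (MUL_T_ne hG))]

end

theorem st_MUL1 : ST_MUL1.{w} := by
  intro K _ σ F G p k l hF hG
  by_cases hF0 : F = 0
  · rw [hF0, zero_mul]; exact MUL_zero _ _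
  by_cases hG0 : G = 0
  · rw [hG0, mul_zero]; exact MUL_zero _ _
  rw [MUL_le_iff (mul_ne_zero hF0 hG0), MUL_ord_mul hF0 hG0]
  exact add_le_add ((MUL_le_iff hF0).1 hF) ((MUL_le_iff hG0).1 hG)

theorem st_MUL2 : ST_MUL2.{w} := by
  intro K _ σ F G p k l hF hG
  rw [MUL_not_iff] at hF hG ⊢
  exact ⟨mul_ne_zero hF.1 hG.1, by rw [MUL_ord_mul hF.1 hG.1]; exact add_le_add hF.2 hG.2⟩

theorem st_MUL3 : ST_MUL3.{w} := by
  intro K _ σ F p hF
  exact ⟨MUL_ord F p, (MUL_le_iff hF).2 le_rfl, MUL_not_iff.2 ⟨hF, le_rfl⟩⟩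

section

variable {K : Type*} [Field K] {r s : ℕ}

lemma MUL_wd_inl (d : Fin r ⊕ Fin s →₀ ℕ) :
    MUL_wd (Sum.elim (fun _ => 1) (fun _ => 0)) d = ∑ j, d (Sum.inl j) := by
  unfold MUL_wd
  rw [Finsupp.sum_fintype _ _ (by simp), Fintype.sum_sum_type]
  simp

lemma MUL_wd_inr (d : Fin r ⊕ Fin s →₀ ℕ) :
    MUL_wd (Sum.elim (fun _ => 0) (fun _ => 1)) d = ∑ j, d (Sum.inr j) := by
  unfold MUL_wd
  rw [Finsupp.sum_fintype _ _ (by simp), Fintype.sum_sum_type]
  simp

lemma MUL_bihom_iff (F : MvPolynomial (Fin r ⊕ Fin s) K) (a b : ℕ) : IsBihom F a b ↔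
    (∀ d ∈ F.support, MUL_wd (Sum.elim (fun _ => 1) (fun _ => 0)) d = a) ∧
    ∀ d ∈ F.support, MUL_wd (Sum.elim (fun _ => 0) (fun _ => 1)) d = b := by
  constructor
  · intro h
    exact ⟨fun d hd => by rw [MUL_wd_inl]; exact (h d hd).1,
      fun d hd => by rw [MUL_wd_inr]; exact (h d hd).2⟩
  · intro h d hd
    exact ⟨by rw [← MUL_wd_inl]; exact h.1 d hd, by rw [← MUL_wd_inr]; exact h.2 d hd⟩

end

theorem st_MUL4 : ST_MUL4.{w} := by
  intro K _ r s F G a b h h0
  rw [MUL_bihom_iff] at h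
  obtain ⟨a1, a2, ha, hF1, hG1⟩ := MUL_of_mul _ h0 h.1
  obtain ⟨b1, b2, hb, hF2, hG2⟩ := MUL_of_mul _ h0 h.2
  exact ⟨a1, b1, a2, b2, (MUL_bihom_iff _ _ _).2 ⟨hF1, hF2⟩, (MUL_bihom_iff _ _ _).2 ⟨hG1, hG2⟩,
    ha, hb⟩

theorem st_MUL5 : ST_MUL5.{w} := by
  intro K _ r s F G a b a' b' hF hG d hd
  classical
  have h1 := support_mul F G hd
  rw [Finset.mem_add] at h1
  obtain ⟨d1, hd1, d2, hd2, rfl⟩ := h1
  have e1 := hF d1 hd1
  have e2 := hG d2 hd2
  simp only [Finsupp.add_apply, Finset.sum_add_distrib]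
  exact ⟨by rw [e1.1, e2.1], by rw [e1.2, e2.2]⟩


end Pool.Agent.Helper17.EC
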