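import Pool.Agent.Helper75.EC.Stmts
import Pool.Agent.Helper17.EC.MUL

open MvPolynomial

universe w

namespace Pool.Agent.Helper17.EC

open Pool.Agent.Helper75.EC

section

variable {K : Type w} [Field K] {n : ℕ}

/-- independence of two polynomials -/
def MOB_ind {σ : Type*} (F G : MvPolynomial σ K) : Prop :=
  ∀ l l' : K, C l * F + C l' * G = 0 → l = 0 ∧ l' = 0

lemma MOB_ind_ne {σ : Type*} {F G : MvPolynomial σ K} (h : MOB_ind F G) : F ≠ 0 ∧ G ≠ 0 := by
  constructor
  · rintro rfl
    have := (h 1 0 (by simp)).1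
    exact one_ne_zero this
  · rintro rfl
    have := (h 0 1 (by simp)).2
    exact one_ne_zero this

lemma MOB_bihom_zero {r s : ℕ} {F : MvPolynomial (Fin r ⊕ Fin s) K} (h : IsBihom F 0 0) :
    F = C (coeff 0 F) := by
  ext d
  rw [coeff_C]
  by_cases hd : d ∈ F.support
  · have h1 := h d hd
    have h2 : d = 0 := by
      ext i
      rcases i with i | i
      · exact (Finset.sum_eq_zero_iff.1 h1.1) i (Finset.mem_univ _)
      · exact (Finset.sum_eq_zero_iff.1 h1.2) i (Finset.mem_univ _)
    rw [h2, if_pos rfl]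
  · rw [notMem_support_iff.1 hd]
    split_ifs with h2
    · rw [← h2] at hd
      exact (notMem_support_iff.1 hd).symm
    · rfl

lemma MOB_bihom_unique {r s : ℕ} {F : MvPolynomial (Fin r ⊕ Fin s) K} (h0 : F ≠ 0)
    {a b a' b' : ℕ} (h : IsBihom F a b) (h' : IsBihom F a' b') : a = a' ∧ b = b' := by
  obtain ⟨e, he⟩ := Finset.nonempty_iff_ne_empty.2 (fun h' => h0 (support_eq_empty.1 h'))
  exact ⟨(h e he).1.symm.trans (h' e he).1, (h e he).2.symm.trans (h' e he).2⟩

variable (u : Fin (n + 3) → Fin (n + 1) → K) (v : Fin (n + 3) → Fin (n + 2) → K)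

lemma MOB_exc (i : Fin (n + 3)) :
    (cls 0 0 (-Pi.single i 1) : Cls n) ∈ effClasses u v := by
  classical
  refine ⟨0, 0, _, ⟨1, one_ne_zero, ?_, ?_⟩, rfl⟩
  · intro d hd
    have h1 : d = 0 := by
      rw [mem_support_iff, ← C_1, coeff_C] at hd
      split_ifs at hd with h
      · exact h.symm
      · exact absurd rfl hd
    rw [h1]; simp
  · intro j
    have : ((-Pi.single i 1 : Fin (n + 3) → ℤ) j).toNat = 0 := by
      rw [Pi.neg_apply, Int.toNat_eq_zero]
      by_cases h : j = i
      · subst h; simp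
      · rw [Pi.single_eq_of_ne h]; simp
    rw [this]
    exact fun d _ => Nat.zero_le _

end

theorem st_MOB : ST_MOB.{w} := by
  classical
  intro K _ n u v a b m F G ha hF hG hind hext
  set D : Cls n := cls a b (fun i => (m i : ℤ)) with hD
  -- the predicate
  set Q : ℕ → Prop := fun a' => ∃ (b' : ℕ) (m' : Fin (n + 3) → ℕ) (s : ℝ)
    (F' G' : MvPolynomial (Fin (n + 1) ⊕ Fin (n + 2)) K), 0 < s ∧
    (cls a' b' (fun i => (m' i : ℤ)) : Cls n) = s • D ∧
    IsSection u v a' b' (fun i => (m' i : ℤ)) F' ∧ IsSection u v a' b' (fun i => (m' i : ℤ)) G' ∧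
    MOB_ind F' G' with hQ
  have hex : ∃ a', Q a' := ⟨a, b, m, 1, F, G, one_pos, by rw [one_smul], hF, hG, hind⟩
  obtain ⟨b', m', s, F', G', hs, hcls, hF', hG', hind'⟩ := Nat.find_spec hex
  set a' := Nat.find hex with ha'
  have hmin : ∀ k < a', ¬ Q k := fun k hk => Nat.find_min hex hk
  have haR : (0 : ℝ) < a := by exact_mod_cast ha
  have hc1 : (a' : ℝ) = s * a := congrArg Prod.fst hcls
  have hc2 : (b' : ℝ) = s * b := congrArg (fun x => x.2.1) hcls
  have hc3 : ∀ i, ((m' i : ℤ) : ℝ) = s * ((m i : ℤ) : ℝ) := fun i =>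
    congrFun (congrArg (fun x => x.2.2) hcls) i
  have hF0 : F' ≠ 0 := (MOB_ind_ne hind').1
  have hG0 : G' ≠ 0 := (MOB_ind_ne hind').2
  -- movable
  have hmov : IsMovable u v a' b' (fun i => (m' i : ℤ)) := by
    refine ⟨?_, ?_⟩
    · intro P hP
      by_contra hcon
      push Not at hcon
      obtain ⟨F1, hF1⟩ := hcon F' hF'
      obtain ⟨G1, hG1⟩ := hcon G' hG'
      have hP0 : P ≠ 0 := hP.ne_zero
      have hF10 : F1 ≠ 0 := by rintro rfl; rw [mul_zero] at hF1; exact hF0 hF1
      have hG10 : G1 ≠ 0 := by rintro rfl; rw [mul_zero] at hG1; exact hG0 hG1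
      obtain ⟨a1, b1, a2, b2, hPb, hFb, e1, e2⟩ := st_MUL4 K _ _ P F1 a' b'
        (by rw [← hF1]; exact hF'.1) (mul_ne_zero hP0 hF10)
      obtain ⟨a3, b3, a4, b4, hPb', hGb, e3, e4⟩ := st_MUL4 K _ _ P G1 a' b'
        (by rw [← hG1]; exact hG'.1) (mul_ne_zero hP0 hG10)
      obtain ⟨rfl, rfl⟩ := MOB_bihom_unique hP0 hPb hPb'
      obtain rfl : a2 = a4 := by omega
      obtain rfl : b2 = b4 := by omega
      set k : Fin (n + 3) → ℕ := fun i => MUL_ord P (Sum.elim (u i) (v i)) with hk
      have hsecP : IsSection u v a1 b1 (fun i => (k i : ℤ)) P :=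
        ⟨hPb, fun i => by rw [Int.toNat_natCast]; exact (MUL_le_iff hP0).2 le_rfl⟩
      have hsec : ∀ H : MvPolynomial (Fin (n + 1) ⊕ Fin (n + 2)) K, H ≠ 0 → IsBihom H a2 b2 →
          (∀ i, OrdGe (P * H) (Sum.elim (u i) (v i)) (m' i)) →
          IsSection u v a2 b2 (fun i => (m' i : ℤ) - k i) H := by
        intro H hH hHb ho
        refine ⟨hHb, fun i => ?_⟩
        rw [MUL_le_iff hH]
        have h1 := (MUL_le_iff (mul_ne_zero hP0 hH)).1 (ho i)
        rw [MUL_ord_mul hP0 hH] at h1
        rw [Int.toNat_le]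
        have h2 : k i = MUL_ord P (Sum.elim (u i) (v i)) := rfl
        change (m' i : ℤ) - ((k i : ℕ) : ℤ) ≤ _
        rw [h2]
        have h3 : ((m' i : ℕ) : ℤ) ≤ MUL_ord P (Sum.elim (u i) (v i)) +
          MUL_ord H (Sum.elim (u i) (v i)) := by exact_mod_cast h1
        linarith
      have hsF : IsSection u v a2 b2 (fun i => (m' i : ℤ) - k i) F1 := by
        apply hsec F1 hF10 hFb
        intro i
        rw [← hF1]
        have := hF'.2 i
        rwa [Int.toNat_natCast] at this
      have hsG : IsSection u v a2 b2 (fun i => (m' i : ℤ) - k i) G1 := by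
        apply hsec G1 hG10 hGb
        intro i
        rw [← hG1]
        have := hG'.2 i
        rwa [Int.toNat_natCast] at this
      set x : Cls n := cls a1 b1 (fun i => (k i : ℤ)) with hx
      set y : Cls n := cls a2 b2 (fun i => (m' i : ℤ) - k i) with hy
      have hxe : x ∈ effClasses u v := ⟨a1, b1, _, ⟨P, hP0, hsecP⟩, rfl⟩
      have hye : y ∈ effClasses u v := ⟨a2, b2, _, ⟨F1, hF10, hsF⟩, rfl⟩
      have hxy : x + y = s • D := by
        rw [← hcls, hx, hy]
        unfold cls
        refine Prod.ext ?_ (Prod.ext ?_ ?_)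
        · simp only [Prod.fst_add]
          rw [← Nat.cast_add, e1]
        · simp only [Prod.snd_add, Prod.fst_add]
          rw [← Nat.cast_add, e2]
        · funext i
          simp only [Prod.snd_add, Pi.add_apply]
          push_cast
          ring
      obtain ⟨s', hs', hxs⟩ := hext x hxe y hye s hs.le hxy
      obtain ⟨s'', hs'', hys⟩ := hext y hye x hxe s hs.le (by rw [add_comm]; exact hxy)
      have ex1 : (a1 : ℝ) = s' * a := congrArg Prod.fst hxs
      have ex2 : (b1 : ℝ) = s' * b := congrArg (fun x => x.2.1) hxs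
      have ey1 : (a2 : ℝ) = s'' * a := congrArg Prod.fst hys
      have ey2 : (b2 : ℝ) = s'' * b := congrArg (fun x => x.2.1) hys
      have ey3 : ∀ i, (((m' i : ℤ) - k i : ℤ) : ℝ) = s'' * ((m i : ℤ) : ℝ) := fun i =>
        congrFun (congrArg (fun x => x.2.2) hys) i
      have hs'pos : 0 < s' := by
        rcases hs'.lt_or_eq with h | h
        · exact h
        · exfalso
          rw [← h, zero_mul] at ex1 ex2
          have h1 : a1 = 0 := by exact_mod_cast ex1
          have h2 : b1 = 0 := by exact_mod_cast ex2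
          rw [h1, h2] at hPb
          have h3 := MOB_bihom_zero hPb
          apply hP.not_isUnit
          rw [h3]
          have h4 : coeff 0 P ≠ 0 := by
            intro h5; rw [h5, C_0] at h3; exact hP0 h3
          exact (isUnit_iff_ne_zero.2 h4).map C
      have hs''pos : 0 < s'' := by
        rcases hs''.lt_or_eq with h | h
        · exact h
        · exfalso
          rw [← h, zero_mul] at ey1 ey2
          have h1 : a2 = 0 := by exact_mod_cast ey1
          have h2 : b2 = 0 := by exact_mod_cast ey2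
          rw [h1, h2] at hFb hGb
          have h3 := MOB_bihom_zero hFb
          have h4 := MOB_bihom_zero hGb
          have h5 := hind' (coeff 0 G1) (-coeff 0 F1) (by
            rw [hF1, hG1, h3, h4]
            simp only [coeff_C, if_true]
            rw [C_neg]; ring)
          rw [h5.1, C_0] at h4
          exact hG10 h4
      have ha1 : 0 < a1 := by
        have : (0 : ℝ) < a1 := by rw [ex1]; positivity
        exact_mod_cast this
      have hnn : ∀ i, k i ≤ m' i := by
        intro i
        have h1 : (0 : ℝ) ≤ (((m' i : ℤ) - k i : ℤ) : ℝ) := by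
          rw [ey3]; positivity
        have h2 : (0 : ℤ) ≤ (m' i : ℤ) - k i := by exact_mod_cast h1
        omega
      have hcast : (fun i => (m' i : ℤ) - k i) = fun i => ((m' i - k i : ℕ) : ℤ) := by
        funext i
        rw [Nat.cast_sub (hnn i)]
      apply hmin a2 (by omega)
      refine ⟨b2, fun i => m' i - k i, s'', F1, G1, hs''pos, ?_, ?_, ?_, ?_⟩
      · rw [← hcast]; exact hys
      · rw [← hcast]; exact hsF
      · rw [← hcast]; exact hsG
      · intro l l' hll
        apply hind'
        have : C l * F' + C l' * G' = P * (C l * F1 + C l' * G1) := by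
          rw [hF1, hG1]; ring
        rw [this, hll, mul_zero]
    · intro i
      refine ⟨by positivity, ?_⟩
      by_contra hcon
      push Not at hcon
      have h1 := hcon F' hF'
      set E : Cls n := cls 0 0 (-Pi.single i 1) with hE
      have hEe : E ∈ effClasses u v := MOB_exc u v i
      set x : Cls n := cls a' b' (fun j => (m' j : ℤ) + (Pi.single i 1 : Fin (n + 3) → ℤ) j)
        with hx
      have hxe : x ∈ effClasses u v := by
        refine ⟨a', b', _, ⟨F', hF0, hF'.1, ?_⟩, rfl⟩
        intro j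
        by_cases hj : j = i
        · subst hj
          rw [Pi.single_eq_same]
          have e : ((m' j : ℤ) + 1).toNat = ((m' j : ℤ).toNat + 1) := by
            rw [Int.toNat_natCast]; omega
          rw [e]
          exact h1
        · rw [Pi.single_eq_of_ne hj, add_zero]
          exact hF'.2 j
      have hxy : E + x = s • D := by
        rw [← hcls, hx, hE]
        unfold cls
        refine Prod.ext ?_ (Prod.ext ?_ ?_)
        · simp
        · simp
        · funext j
          simp only [Prod.snd_add, Pi.add_apply, Pi.neg_apply]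
          push_cast
          ring
      obtain ⟨s', hs', hEs⟩ := hext E hEe x hxe s hs.le hxy
      have ex1 : ((0 : ℕ) : ℝ) = s' * a := congrArg Prod.fst hEs
      have ex3 : (((-Pi.single i 1 : Fin (n + 3) → ℤ) i : ℤ) : ℝ) = s' * ((m i : ℤ) : ℝ) :=
        congrFun (congrArg (fun x => x.2.2) hEs) i
      have h2 : s' = 0 := by
        rw [Nat.cast_zero] at ex1
        rcases mul_eq_zero.1 ex1.symm with h | h
        · exact h
        · exact absurd h haR.ne'
      rw [h2, zero_mul, Pi.neg_apply, Pi.single_eq_same] at ex3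
      norm_num at ex3
  have hmem : (cls a' b' (fun i => (m' i : ℤ)) : Cls n) ∈ Submodule.span NNReal
      (movClasses u v) := Submodule.subset_span ⟨a', b', _, hmov, rfl⟩
  have hfin := Submodule.smul_mem _ (Real.toNNReal s⁻¹) hmem
  have he : (Real.toNNReal s⁻¹) • (cls a' b' (fun i => (m' i : ℤ)) : Cls n) = D := by
    rw [NNReal.smul_def, hcls, smul_smul, Real.coe_toNNReal _ (inv_nonneg.2 hs.le),
      inv_mul_cancel₀ hs.ne', one_smul]
  rw [he] at hfin
  exact hfin

end Pool.Agent.Helper17.EC
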